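import Pool.Agent.Y882.Err

/-! The error term for one residue class, all conductors estimated by `PA`. -/

set_option autoImplicit false

open Finset

namespace Pool.Agent.Z476

open Pool.Agent.Y882
open Pool.Agent.Helper112 Pool.Agent.Helper112.BLB
open Pool.Agent.H732R2.B2 (Sc card_prim)

/-- the error term, without the large sieve -/
theorem err_pt (X Z D : ℕ) (α : ℕ → ℝ) (S : Finset ℕ) (hS : S ⊆ Icc 1 Z)
    (c : ℕ → ℝ) (K : ℝ) (hK : 0 ≤ K) (hc : ∀ d, |c d| ≤ K)
    (hsq : ∀ d, c d ≠ 0 → Squarefree d) (R : ℝ)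
    (hR : ∀ g : ℕ, 1 ≤ g → g ≤ D → ∑ b ∈ (Icc 1 X).filter (fun b => ¬ b.Coprime g), |α b| ≤ R) :
    |∑ d ∈ Icc 1 D, c d * ∑ n ∈ S.filter (fun n => n.Coprime d), Ed X α d n| ≤
      K * (Sc 1 D * (S.card * (∑ f ∈ Icc 2 D, (1 / (Nat.totient f : ℝ)) * PA X α f + D * R))) := by
  classical
  set G : ℕ → ℕ → ℝ := fun g f => (1 / (Nat.totient g : ℝ)) * ((1 / (Nat.totient f : ℝ)) *
    P X Z (res g α) (res g (ind S)) f) with hG
  have hG0 : ∀ g f, 0 ≤ G g f := fun g f =>
    mul_nonneg (by positivity) (mul_nonneg (by positivity) (P_nonneg _ _ _ _ _))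
  set M : Finset ℕ := (Icc 1 D).filter Squarefree with hM
  have s1 : |∑ d ∈ Icc 1 D, c d * ∑ n ∈ S.filter (fun n => n.Coprime d), Ed X α d n| ≤
      K * ∑ d ∈ M, ∑ f ∈ d.divisors.filter (fun f => f ≠ 1), G (d / f) f := by
    have h1 : ∑ d ∈ Icc 1 D, c d * ∑ n ∈ S.filter (fun n => n.Coprime d), Ed X α d n =
        ∑ d ∈ M, c d * ∑ n ∈ S.filter (fun n => n.Coprime d), Ed X α d n := by
      rw [hM, sum_filter]
      apply sum_congr rfl
      intro d _
      split_ifs with h
      · rfl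
      · have : c d = 0 := by
          by_contra hne
          exact h (hsq d hne)
        rw [this, zero_mul]
    rw [h1, mul_sum]
    refine (abs_sum_le_sum_abs _ _).trans (sum_le_sum fun d hd => ?_)
    rw [hM, mem_filter, mem_Icc] at hd
    rw [abs_mul]
    apply mul_le_mul (hc d) _ (abs_nonneg _) hK
    refine (ed_sum X Z α S hS d (by omega)).trans (sum_le_sum fun f hf => ?_)
    rw [mem_filter, Nat.mem_divisors] at hf
    obtain ⟨⟨⟨g, rfl⟩, -⟩, hf1⟩ := hf
    have hf0 : 0 < f := Nat.pos_of_ne_zero (by rintro rfl; simp at hd)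
    have hg0 : 0 < g := Nat.pos_of_ne_zero (by rintro rfl; simp at hd)
    rw [Nat.mul_div_cancel_left g hf0]
    have hcop2 : f.Coprime g := Nat.coprime_of_squarefree_mul hd.2
    rw [Nat.totient_mul hcop2]
    apply le_of_eq
    simp only [hG]
    push_cast
    have htf : (0 : ℝ) < Nat.totient f := by exact_mod_cast Nat.totient_pos.mpr hf0
    have htg0 : (0 : ℝ) < Nat.totient g := by exact_mod_cast Nat.totient_pos.mpr hg0
    field_simp
  have s4 : ∑ d ∈ M, ∑ f ∈ d.divisors.filter (fun f => f ≠ 1), G (d / f) f ≤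
      ∑ g ∈ M, ∑ f ∈ Icc 2 D, G g f := by
    rw [sum_sigma', ← sum_product']
    have e6 : ∑ x ∈ M.sigma (fun m => m.divisors.filter (fun f => f ≠ 1)), G (x.1 / x.2) x.2 =
        ∑ p ∈ (M.sigma (fun m => m.divisors.filter (fun f => f ≠ 1))).image
          (fun x : (_ : ℕ) × ℕ => (x.1 / x.2, x.2)), G p.1 p.2 := by
      rw [sum_image]
      rintro ⟨m, f⟩ hx ⟨m', f'⟩ hx' heq
      simp only [Finset.mem_coe, mem_sigma, mem_filter, Nat.mem_divisors] at hx hx'
      simp only [Prod.mk.injEq] at heq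
      obtain ⟨h7, h8⟩ := heq
      subst h8
      have : m = m' := by
        rw [← Nat.div_mul_cancel hx.2.1.1, h7, Nat.div_mul_cancel hx'.2.1.1]
      subst this
      rfl
    rw [e6]
    apply sum_le_sum_of_subset_of_nonneg
    · intro p hp
      rw [mem_image] at hp
      obtain ⟨⟨m, f⟩, hx, rfl⟩ := hp
      simp only [mem_sigma, mem_filter, Nat.mem_divisors] at hx
      obtain ⟨hm, ⟨hfm, hm0⟩, hf1⟩ := hx
      rw [hM, mem_filter, mem_Icc] at hm
      have hf0 : 0 < f := Nat.pos_of_dvd_of_pos hfm hm.1.1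
      simp only [mem_product, mem_Icc, hM, mem_filter]
      refine ⟨⟨⟨Nat.div_pos (Nat.le_of_dvd hm.1.1 hfm) hf0, (Nat.div_le_self m f).trans hm.1.2⟩,
        ?_⟩, by omega, (Nat.le_of_dvd hm.1.1 hfm).trans hm.1.2⟩
      exact hm.2.squarefree_of_dvd (Nat.div_dvd_of_dvd hfm)
    · intro p _ _
      exact hG0 _ _
  set BVs : ℝ := ∑ f ∈ Icc 2 D, (1 / (Nat.totient f : ℝ)) * PA X α f with hBVs
  have s5 : ∀ g ∈ M, ∑ f ∈ Icc 2 D, G g f ≤ (1 / (Nat.totient g : ℝ)) *
      (S.card * (BVs + D * R)) := by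
    intro g hg
    rw [hM, mem_filter, mem_Icc] at hg
    rw [hG, ← mul_sum]
    apply mul_le_mul_of_nonneg_left _ (by positivity)
    have v1 : ∀ f ∈ Icc 2 D, (1 / (Nat.totient f : ℝ)) *
        P X Z (res g α) (res g (ind S)) f ≤
        S.card * ((1 / (Nat.totient f : ℝ)) * PA X α f + R) := by
      intro f hf
      rw [mem_Icc] at hf
      have htf : (0 : ℝ) < Nat.totient f := by
        exact_mod_cast Nat.totient_pos.mpr (by omega)
      have hR0 : 0 ≤ R := (sum_nonneg fun b _ => abs_nonneg _).trans (hR g hg.1.1 hg.1.2)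
      have v2 : P X Z (res g α) (res g (ind S)) f ≤ S.card * (PA X α f + Nat.totient f * R) := by
        unfold P PA
        calc ∑ ψ ∈ (univ : Finset (DirichletCharacter ℂ f)).filter (fun χ => χ.IsPrimitive),
            ‖A X (res g α) f ψ‖ * ‖A Z (res g (ind S)) f ψ‖ ≤
            ∑ ψ ∈ (univ : Finset (DirichletCharacter ℂ f)).filter (fun χ => χ.IsPrimitive),
            (‖A X α f ψ‖ + R) * S.card := by
              apply sum_le_sum
              intro ψ _
              apply mul_le_mul _ (A_le_card Z g f S hS ψ) (norm_nonneg _) (by positivity)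
              exact (A_res_le X g f α ψ).trans (add_le_add le_rfl (hR g hg.1.1 hg.1.2))
          _ = S.card * (∑ ψ ∈ (univ : Finset (DirichletCharacter ℂ f)).filter
              (fun χ => χ.IsPrimitive), ‖A X α f ψ‖ +
              (((univ : Finset (DirichletCharacter ℂ f)).filter
              (fun χ => χ.IsPrimitive)).card : ℝ) * R) := by
              rw [← sum_mul, sum_add_distrib, sum_const, nsmul_eq_mul]
              ring
          _ ≤ _ := by
              apply mul_le_mul_of_nonneg_left _ (by positivity)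
              apply add_le_add le_rfl
              apply mul_le_mul_of_nonneg_right _ hR0
              exact card_prim f (by omega)
      calc (1 / (Nat.totient f : ℝ)) * P X Z (res g α) (res g (ind S)) f ≤
          (1 / (Nat.totient f : ℝ)) * (S.card * (PA X α f + Nat.totient f * R)) :=
            mul_le_mul_of_nonneg_left v2 (by positivity)
        _ = S.card * ((1 / (Nat.totient f : ℝ)) * PA X α f + R) := by
            field_simp
    refine (sum_le_sum v1).trans ?_
    rw [← mul_sum, sum_add_distrib, sum_const, nsmul_eq_mul, Nat.card_Icc]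
    apply mul_le_mul_of_nonneg_left _ (by positivity)
    apply add_le_add le_rfl
    have hR0 : 0 ≤ R := (sum_nonneg fun b _ => abs_nonneg _).trans (hR g hg.1.1 hg.1.2)
    apply mul_le_mul_of_nonneg_right _ hR0
    have : D + 1 - 2 ≤ D := by omega
    exact_mod_cast this
  refine s1.trans (mul_le_mul_of_nonneg_left ?_ hK)
  refine s4.trans ((sum_le_sum s5).trans ?_)
  rw [← sum_mul]
  have s6 : ∑ g ∈ M, (1 / (Nat.totient g : ℝ)) = Sc 1 D := by
    unfold Sc
    rw [hM]
    apply sum_congr rfl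
    intro g _
    rw [one_pow]
  rw [s6]

/-- the error term for one class -/
theorem err_one (X D n : ℕ) (hn : 1 ≤ n) (α : ℕ → ℝ)
    (c : ℕ → ℝ) (K : ℝ) (hK : 0 ≤ K) (hc : ∀ d, |c d| ≤ K)
    (hsq : ∀ d, c d ≠ 0 → Squarefree d) (R : ℝ)
    (hR : ∀ g : ℕ, 1 ≤ g → g ≤ D → ∑ b ∈ (Icc 1 X).filter (fun b => ¬ b.Coprime g), |α b| ≤ R) :
    |∑ d ∈ (Icc 1 D).filter (fun d => Nat.Coprime n d), c d * Ed X α d n| ≤
      K * (Sc 1 D * (∑ f ∈ Icc 2 D, (1 / (Nat.totient f : ℝ)) * PA X α f + D * R)) := by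
  have h := err_pt X n D α {n} (by
    intro m hm
    rw [mem_singleton] at hm
    subst hm
    exact mem_Icc.2 ⟨hn, le_rfl⟩) c K hK hc hsq R hR
  have e : ∑ d ∈ Icc 1 D, c d * ∑ m ∈ ({n} : Finset ℕ).filter (fun m => m.Coprime d), Ed X α d m =
      ∑ d ∈ (Icc 1 D).filter (fun d => Nat.Coprime n d), c d * Ed X α d n := by
    rw [sum_filter]
    apply sum_congr rfl
    intro d _
    rw [sum_filter, sum_singleton]
    split_ifs <;> simp
  rw [e, card_singleton] at h
  push_cast at h
  rw [one_mul] at h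
  exact h

end Pool.Agent.Z476
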