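import Pool.Agent.Y882.GW.Sq2
import Pool.Agent.Z476.Pt

/-! Almost primes `n - p` with a small prime `p`, for every even `n`. -/

set_option autoImplicit false

namespace Pool.Agent.Z476

open Finset Filter
open Pool.Agent.W23.DC
open Pool.Agent.Y882
open Pool.Agent.Y882.PX
open Pool.Agent.Y882.KW
open Pool.Agent.Y882.SI
open Pool.Agent.Y882.GW

open Classical in
/-- the primes `p` in `(x / 2, x)` such that `n - p` has at most `r` prime factors, all at least `z` -/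
noncomputable def gd (r : ℕ) (x z : ℝ) (n : ℕ) : Finset ℕ :=
  (Icc 1 ⌊x⌋₊).filter (fun p : ℕ => p.Prime ∧ x / 2 < p ∧ (p : ℝ) < x ∧
    (n - p).primeFactorsList.length ≤ r ∧ ∀ q : ℕ, q.Prime → q ∣ (n - p) → z ≤ q)

open Classical in
/-- medium squares, pointwise -/
theorem medium (ζ ξ : ℝ) (hζ : 0 < ζ) (hξ : ξ ≤ 1) : ∃ Y0 : ℕ, ∀ Y : ℕ, Y0 ≤ Y → ∀ X : ℕ,
    ((Y : ℝ) ^ ξ) ^ 2 ≤ 2 * X → ∀ n : ℕ,
      (((Icc 1 X).filter (fun m => SBad Y ζ ξ n m)).card : ℝ) ≤ X * (6 / (Y : ℝ) ^ ζ) := by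
  obtain ⟨Y0, H⟩ := pr_sq ζ ξ hζ hξ
  refine ⟨max Y0 2, fun Y hY X hX n => ?_⟩
  obtain ⟨g1, g2⟩ := H Y ((le_max_left _ _).trans hY)
  have hY2 : 2 ≤ Y := (le_max_right _ _).trans hY
  have hX0 : (0 : ℝ) ≤ X := Nat.cast_nonneg _
  have hsub : (Icc 1 X).filter (fun m => SBad Y ζ ξ n m) ⊆ (pr Y ζ ξ).biUnion
      (fun q => (Icc 1 X).filter (fun m : ℕ => ((q ^ 2 : ℕ) : ℤ) ∣ (m : ℤ) - n)) := by
    intro m hm
    rw [mem_filter] at hm
    obtain ⟨hm1, q, hq, hqn⟩ := hm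
    rw [mem_biUnion]
    refine ⟨q, hq, ?_⟩
    rw [mem_filter]
    refine ⟨hm1, ?_⟩
    rw [← neg_sub]
    exact hqn.neg_right
  calc (((Icc 1 X).filter (fun m => SBad Y ζ ξ n m)).card : ℝ) ≤
      ((∑ q ∈ pr Y ζ ξ, ((Icc 1 X).filter
        (fun m : ℕ => ((q ^ 2 : ℕ) : ℤ) ∣ (m : ℤ) - n)).card : ℕ) : ℝ) := by
        exact_mod_cast (card_le_card hsub).trans card_biUnion_le
    _ ≤ ∑ q ∈ pr Y ζ ξ, (X * 3) * (1 / (q : ℝ) ^ 2) := by
        push_cast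
        apply sum_le_sum
        intro q hq
        obtain ⟨hq1, _, hq3⟩ := pr_mem Y q ζ ξ hY2 hq
        have hq0 : (0 : ℝ) < q := by exact_mod_cast hq1.pos
        have h5 := class_count (q ^ 2) (pow_pos hq1.pos 2) X n
        push_cast at h5
        refine h5.trans ?_
        have h6 : (q : ℝ) ^ 2 ≤ 2 * X := (pow_le_pow_left₀ hq0.le hq3.le 2).trans hX
        have h7 : 1 ≤ 2 * ((X : ℝ) / (q : ℝ) ^ 2) := by
          rw [mul_div_assoc', le_div_iff₀ (by positivity)]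
          linarith
        have h8 : (X : ℝ) * 3 * (1 / (q : ℝ) ^ 2) = X / (q : ℝ) ^ 2 + 2 * (X / (q : ℝ) ^ 2) := by ring
        rw [h8]
        linarith
    _ = (X * 3) * ∑ q ∈ pr Y ζ ξ, 1 / (q : ℝ) ^ 2 := by rw [mul_sum]
    _ ≤ (X * 3) * (2 / (Y : ℝ) ^ ζ) := mul_le_mul_of_nonneg_left g1 (by positivity)
    _ = _ := by ring

open Classical in
theorem block (r : ℕ) (θ τ ζ υ lam S : ℝ) (hθ0 : 0 < θ) (hθ1 : θ ≤ 1) (hζ0 : 0 < ζ)
    (h2 : 2 * ζ < τ) (h4 : τ ≤ 4 * ζ) (hτθ : τ < θ / 2) (hζυ : ζ ≤ υ) (hυτ : υ < τ)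
    (hlam : 0 < lam)
    (hJ0 : ∫ x in ζ..υ, (lam - lam / υ * x) / (τ - x) / x < Real.log (τ / ζ - 1) / τ)
    (hS : 1 < S) (hr : 1 / lam + S / υ ≤ r + 1) :
    ∃ δ : ℝ, 0 < δ ∧ ∃ Y0 : ℕ, ∀ Y : ℕ, Y0 ≤ Y → ∀ x : ℝ, (Y : ℝ) ^ θ ≤ x → x ≤ Y →
      ∀ n : ℕ, Y < n → n ≤ 2 * Y → Even n →
      δ * x / Real.log Y ^ 2 * sgs n ≤ ((gd r x ((Y : ℝ) ^ ζ) n).card : ℝ) := by
  have hυ0 : 0 < υ := by linarith
  have hυ1 : υ ≤ 1 := by linarith
  obtain ⟨δ, hδ, Y1, HD⟩ := point θ τ ζ υ lam (lam / υ) hθ0 hθ1 hζ0 h2 h4 hτθ hζυ hυτ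
    hlam.le (by positivity) (by rw [div_mul_cancel₀ _ hυ0.ne']) hJ0
  obtain ⟨Y3, HM⟩ := medium ζ υ hζ0 hυ1
  have ev1 := polylog (24 / δ) 2 ζ hζ0
  have ev3 : ∀ᶠ Y : ℕ in atTop, (2 : ℝ) ≤ (Y : ℝ) ^ (S - 1) :=
    ((tendsto_rpow_atTop (by linarith)).comp tendsto_natCast_atTop_atTop).eventually_ge_atTop _
  have ev5 : ∀ᶠ Y : ℕ in atTop, (4 : ℝ) ≤ (Y : ℝ) ^ θ :=
    ((tendsto_rpow_atTop hθ0).comp tendsto_natCast_atTop_atTop).eventually_ge_atTop _
  obtain ⟨Y4, hY4⟩ := eventually_atTop.1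
    (ev1.and (ev3.and (ev5.and (eventually_ge_atTop 3))))
  refine ⟨δ / 2, by positivity, max Y1 (max Y3 Y4), ?_⟩
  intro Y hY x hYx hxY n hn1 hn2 hev
  obtain ⟨e1, e3, e5, e6⟩ := hY4 Y (((le_max_right _ _).trans (le_max_right _ _)).trans hY)
  have hY1 : Y1 ≤ Y := (le_max_left _ _).trans hY
  have hY3 : Y3 ≤ Y := ((le_max_left _ _).trans (le_max_right _ _)).trans hY
  have hYr : (3 : ℝ) ≤ Y := by exact_mod_cast e6
  have hY0 : (0 : ℝ) < Y := by linarith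
  have hY1r : (1 : ℝ) ≤ Y := by linarith
  have hlY : 0 < Real.log Y := Real.log_pos (by linarith)
  have hx0 : 0 < x := by linarith
  set X : ℕ := ⌊x⌋₊ with hX
  have hXx : (X : ℝ) ≤ x := Nat.floor_le hx0.le
  have hX1 : 1 ≤ X := Nat.le_floor (by push_cast; linarith)
  have hXpos : (0 : ℝ) < X := by exact_mod_cast hX1
  have g1 : δ * x / Real.log Y ^ 2 * sgs n ≤ (GW.cnt x (WW Y ζ υ lam (lam / υ)) n : ℝ) :=
    HD Y hY1 x hYx hxY n hn1 hn2 hev
  have g3 : (((Icc 1 X).filter (fun m => SBad Y ζ υ n m)).card : ℝ) ≤ X * (6 / (Y : ℝ) ^ ζ) := by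
    apply HM Y hY3 X _ n
    rw [← Real.rpow_natCast, ← Real.rpow_mul hY0.le]
    have h9 : (Y : ℝ) ^ (υ * ((2 : ℕ) : ℝ)) ≤ (Y : ℝ) ^ θ := by
      apply Real.rpow_le_rpow_of_exponent_le hY1r
      push_cast
      linarith
    have h10 := Nat.lt_floor_add_one x
    rw [← hX] at h10
    have h11 : (1 : ℝ) ≤ X := by exact_mod_cast hX1
    linarith
  have hkey : GW.cnt x (WW Y ζ υ lam (lam / υ)) n ≤ (gd r x ((Y : ℝ) ^ ζ) n).card +
      ((Icc 1 X).filter (fun m => SBad Y ζ υ n m)).card := by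
    unfold GW.cnt
    have h7 : (Icc 1 ⌊x⌋₊).filter (fun p : ℕ => p.Prime ∧ x / 2 < p ∧ (p : ℝ) < x ∧
        0 < WW Y ζ υ lam (lam / υ) (n - p)) ⊆ gd r x ((Y : ℝ) ^ ζ) n ∪
        (Icc 1 X).filter (fun m => SBad Y ζ υ n m) := by
      intro p hp
      rw [mem_filter] at hp
      obtain ⟨hp1, hp2, hp3, hp4, hp5⟩ := hp
      rw [mem_union]
      by_cases hb : SBad Y ζ υ n p
      · right
        rw [mem_filter]
        exact ⟨hp1, hb⟩
      · left
        have hpn : p < n := by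
          have : (p : ℝ) < n := by
            have h8 : (Y : ℝ) < n := by exact_mod_cast hn1
            linarith
          exact_mod_cast this
        have hres := almost Y (by omega) ζ υ lam S r hζυ hυ0 hυ1 hlam hr (n - p)
          (by omega) (by
            have h8 : ((n - p : ℕ) : ℝ) ≤ 2 * Y := by
              have : n - p ≤ 2 * Y := by omega
              exact_mod_cast this
            refine h8.trans ?_
            calc 2 * (Y : ℝ) ≤ (Y : ℝ) ^ (S - 1) * (Y : ℝ) ^ (1 : ℝ) := by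
                  rw [Real.rpow_one]
                  exact mul_le_mul_of_nonneg_right e3 hY0.le
              _ = (Y : ℝ) ^ S := by
                  rw [← Real.rpow_add hY0]
                  congr 1
                  ring) hp5 (by
            intro q hq hqd
            apply hb
            refine ⟨q, hq, ?_⟩
            have h9 : ((n - p : ℕ) : ℤ) = (n : ℤ) - p := by
              rw [Nat.cast_sub hpn.le]
            rw [← h9]
            exact_mod_cast hqd)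
        unfold gd
        rw [mem_filter]
        exact ⟨hp1, hp2, hp3, hp4, hres.1, hres.2⟩
    exact (card_le_card h7).trans (card_union_le _ _)
  have hkr : (GW.cnt x (WW Y ζ υ lam (lam / υ)) n : ℝ) ≤ ((gd r x ((Y : ℝ) ^ ζ) n).card : ℝ) +
      (((Icc 1 X).filter (fun m => SBad Y ζ υ n m)).card : ℝ) := by exact_mod_cast hkey
  have hs1 := one_le_sgs n
  have hsm : (X : ℝ) * (6 / (Y : ℝ) ^ ζ) ≤ δ / 2 * x / Real.log Y ^ 2 * sgs n := by
    calc (X : ℝ) * (6 / (Y : ℝ) ^ ζ) ≤ x * (6 / (Y : ℝ) ^ ζ) :=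
          mul_le_mul_of_nonneg_right hXx (by positivity)
      _ = 6 * x / (Y : ℝ) ^ ζ := by ring
      _ ≤ δ / 2 * x / Real.log Y ^ 2 := by
          rw [div_le_div_iff₀ (by positivity) (by positivity)]
          have h8 : Real.log Y ^ 2 ≤ δ / 24 * (Y : ℝ) ^ ζ := by
            have h9 := mul_le_mul_of_nonneg_left e1 (show 0 ≤ δ / 24 by positivity)
            calc Real.log Y ^ 2 = δ / 24 * (24 / δ * Real.log Y ^ 2) := by field_simp
              _ ≤ _ := h9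
          calc 6 * x * Real.log Y ^ 2 ≤ 6 * x * (δ / 24 * (Y : ℝ) ^ ζ) :=
                mul_le_mul_of_nonneg_left h8 (by positivity)
            _ ≤ δ / 2 * x * (Y : ℝ) ^ ζ := by
                have : 0 < δ * x * (Y : ℝ) ^ ζ := by positivity
                nlinarith
      _ ≤ δ / 2 * x / Real.log Y ^ 2 * sgs n := le_mul_of_one_le_right (by positivity) hs1
  have h11 : δ / 2 * x / Real.log Y ^ 2 * sgs n = δ * x / Real.log Y ^ 2 * sgs n / 2 := by ring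
  rw [h11] at hsm ⊢
  linarith

end Pool.Agent.Z476
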