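import Pool.Agent.Z476.Sls

/-! The error term on average over a sparse set. -/

set_option autoImplicit false

open Finset

namespace Pool.Agent.Z476

open Pool.Agent.Y882
open Pool.Agent.Helper112 Pool.Agent.Helper112.BLB
open Pool.Agent.H732R2.B2 (Sc card_prim)

theorem res_ind (S : Finset ℕ) (g n : ℕ) : |res g (ind S) n| ≤ ind S n := by
  unfold res
  split_ifs
  · rw [abs_of_nonneg (ind_le S n).1]
  · rw [abs_zero]
    exact (ind_le S n).1

open Classical in
/-- the large sieve for `P`, sparse second sequence -/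
theorem P_sparse (X Z : ℕ) (α β : ℕ → ℝ) (S : Finset ℕ) (hS : S ⊆ Icc 1 Z)
    (hβ : ∀ n, |β n| ≤ ind S n) (B : ℝ) (hB : ∀ m, 1 ≤ m → m ≤ Z → (m.divisors.card : ℝ) ≤ B)
    (hB0 : 0 ≤ B) (j : ℕ) :
    ∑ f ∈ Icc 1 j, ((f : ℝ) / (Nat.totient f : ℝ)) * P X Z α β f ≤
      3 * (Real.sqrt X + j) * (Real.sqrt (∑ b ∈ Icc 1 X, α b ^ 2) *
        (Real.sqrt S.card * j + S.card * Real.sqrt (j * B))) := by
  have hA := mult_large_sieve X j (fun b => (α b : ℂ))
  simp only [Complex.norm_real, Real.norm_eq_abs, sq_abs] at hA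
  have hBs : ∑ f ∈ Icc 1 j, ((f : ℝ) / (Nat.totient f : ℝ)) *
      ∑ χ ∈ (univ : Finset (DirichletCharacter ℂ f)).filter (fun χ => χ.IsPrimitive),
        ‖∑ n ∈ Icc 1 Z, (β n : ℂ) * χ (n : ZMod f)‖ ^ 2 ≤
      S.card * (j : ℝ) ^ 2 + (S.card : ℝ) ^ 2 * (j * B) := by
    refine le_trans (sum_le_sum ?_) (sls Z j β S hS hβ B hB)
    intro f hf
    rw [mem_Icc] at hf
    have : NeZero f := ⟨by omega⟩
    rw [← MLS.sum_units f Z (fun n => (β n : ℂ))]
    exact MLS.prim_bound f Z (fun n => (β n : ℂ))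
  set SA := ∑ f ∈ Icc 1 j, ((f : ℝ) / (Nat.totient f : ℝ)) *
      ∑ χ ∈ (univ : Finset (DirichletCharacter ℂ f)).filter (fun χ => χ.IsPrimitive),
        ‖∑ n ∈ Icc 1 X, (α n : ℂ) * χ (n : ZMod f)‖ ^ 2 with hSA
  set SB := ∑ f ∈ Icc 1 j, ((f : ℝ) / (Nat.totient f : ℝ)) *
      ∑ χ ∈ (univ : Finset (DirichletCharacter ℂ f)).filter (fun χ => χ.IsPrimitive),
        ‖∑ n ∈ Icc 1 Z, (β n : ℂ) * χ (n : ZMod f)‖ ^ 2 with hSB
  have hSA' : SA = ∑ f ∈ Icc 1 j, ∑ χ ∈ (univ : Finset (DirichletCharacter ℂ f)).filter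
      (fun χ => χ.IsPrimitive), (Real.sqrt ((f : ℝ) / (Nat.totient f : ℝ)) * ‖A X α f χ‖) ^ 2 := by
    rw [hSA]
    apply sum_congr rfl; intro f _
    rw [mul_sum]
    apply sum_congr rfl; intro χ _
    rw [mul_pow, Real.sq_sqrt (by positivity)]
    rfl
  have hSB' : SB = ∑ f ∈ Icc 1 j, ∑ χ ∈ (univ : Finset (DirichletCharacter ℂ f)).filter
      (fun χ => χ.IsPrimitive), (Real.sqrt ((f : ℝ) / (Nat.totient f : ℝ)) * ‖A Z β f χ‖) ^ 2 := by
    rw [hSB]
    apply sum_congr rfl; intro f _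
    rw [mul_sum]
    apply sum_congr rfl; intro χ _
    rw [mul_pow, Real.sq_sqrt (by positivity)]
    rfl
  have h1 : ∑ f ∈ Icc 1 j, ((f : ℝ) / (Nat.totient f : ℝ)) * P X Z α β f =
      ∑ f ∈ Icc 1 j, ∑ χ ∈ (univ : Finset (DirichletCharacter ℂ f)).filter
      (fun χ => χ.IsPrimitive), (Real.sqrt ((f : ℝ) / (Nat.totient f : ℝ)) * ‖A X α f χ‖) *
        (Real.sqrt ((f : ℝ) / (Nat.totient f : ℝ)) * ‖A Z β f χ‖) := by
    apply sum_congr rfl; intro f _
    unfold P
    rw [mul_sum]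
    apply sum_congr rfl; intro χ _
    have : ((f : ℝ) / (Nat.totient f : ℝ)) = Real.sqrt ((f : ℝ) / (Nat.totient f : ℝ)) *
      Real.sqrt ((f : ℝ) / (Nat.totient f : ℝ)) := (Real.mul_self_sqrt (by positivity)).symm
    conv_lhs => rw [this]
    ring
  have h2 : ∑ f ∈ Icc 1 j, ((f : ℝ) / (Nat.totient f : ℝ)) * P X Z α β f ≤
      Real.sqrt SA * Real.sqrt SB := by
    rw [h1, hSA', hSB', sum_sigma', sum_sigma', sum_sigma']
    exact Real.sum_mul_le_sqrt_mul_sqrt _ _ _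
  refine h2.trans ?_
  have hX : Real.sqrt ((X : ℝ) + (j : ℝ) ^ 2) ≤ Real.sqrt X + j := by
    rw [Real.sqrt_le_left (by positivity)]
    have := Real.sq_sqrt (Nat.cast_nonneg (α := ℝ) X)
    have h3 := Real.sqrt_nonneg (X : ℝ)
    have h4 := Nat.cast_nonneg (α := ℝ) j
    nlinarith
  have h6 : Real.sqrt 6 ≤ 3 := by
    rw [Real.sqrt_le_left (by norm_num)]
    norm_num
  have hA2 : Real.sqrt SA ≤ 3 * (Real.sqrt X + j) *
      Real.sqrt (∑ b ∈ Icc 1 X, α b ^ 2) := by
    refine (Real.sqrt_le_sqrt hA).trans ?_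
    rw [Real.sqrt_mul (by positivity), Real.sqrt_mul (by positivity)]
    gcongr
  have hB2 : Real.sqrt SB ≤ Real.sqrt S.card * j + S.card * Real.sqrt (j * B) := by
    refine (Real.sqrt_le_sqrt hBs).trans ?_
    rw [Real.sqrt_le_left (by positivity)]
    have a1 : Real.sqrt (S.card : ℝ) ^ 2 = S.card := Real.sq_sqrt (Nat.cast_nonneg _)
    have a2 : Real.sqrt ((j : ℝ) * B) ^ 2 = j * B := Real.sq_sqrt (by positivity)
    have a3 : (Real.sqrt S.card * j + S.card * Real.sqrt (j * B)) ^ 2 =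
        Real.sqrt (S.card : ℝ) ^ 2 * (j : ℝ) ^ 2 + (S.card : ℝ) ^ 2 * Real.sqrt ((j : ℝ) * B) ^ 2 +
        2 * (Real.sqrt S.card * j * (S.card * Real.sqrt (j * B))) := by ring
    rw [a3, a1, a2]
    have : 0 ≤ Real.sqrt S.card * j * (S.card * Real.sqrt (j * B)) := by positivity
    linarith
  calc Real.sqrt SA * Real.sqrt SB ≤ (3 * (Real.sqrt X + j) *
      Real.sqrt (∑ b ∈ Icc 1 X, α b ^ 2)) * (Real.sqrt S.card * j + S.card * Real.sqrt (j * B)) :=
        mul_le_mul hA2 hB2 (Real.sqrt_nonneg _) (by positivity)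
    _ = _ := by ring

theorem sparse45 (X Z : ℕ) (α β : ℕ → ℝ) (S : Finset ℕ) (hS : S ⊆ Icc 1 Z)
    (hβ : ∀ n, |β n| ≤ ind S n) (B : ℝ) (hB : ∀ m, 1 ≤ m → m ≤ Z → (m.divisors.card : ℝ) ≤ B)
    (hB0 : 0 ≤ B) (F0 F1 : ℕ) (h0 : 1 ≤ F0) (h1 : 1 ≤ F1) :
    ∑ f ∈ Icc F0 F1, (1 / (Nat.totient f : ℝ)) * P X Z α β f ≤
      3 * (Real.sqrt X / F0 + 1) * (2 + Real.log F1) *
        (Real.sqrt (∑ b ∈ Icc 1 X, α b ^ 2) *
          (Real.sqrt S.card * F1 + S.card * Real.sqrt (F1 * B))) := by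
  have hlog : 0 ≤ Real.log F1 := Real.log_natCast_nonneg F1
  have hF0r : (1:ℝ) ≤ F0 := by exact_mod_cast h0
  have hF1r : (1:ℝ) ≤ F1 := by exact_mod_cast h1
  rcases Nat.lt_or_ge F1 F0 with hlt | hge
  · rw [Icc_eq_empty (by omega), sum_empty]
    positivity
  set W : ℝ := 3 * (Real.sqrt X / F0 + 1) * (Real.sqrt (∑ b ∈ Icc 1 X, α b ^ 2) *
          (Real.sqrt S.card * F1 + S.card * Real.sqrt (F1 * B))) with hW
  have hW0 : 0 ≤ W := by positivity
  set R : ℕ → ℝ := fun f => ((f : ℝ) / (Nat.totient f : ℝ)) * P X Z α β f with hR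
  have hR0 : ∀ f, 0 ≤ R f := fun f => mul_nonneg (by positivity) (P_nonneg _ _ _ _ _)
  have e1 : ∑ f ∈ Icc F0 F1, (1 / (Nat.totient f : ℝ)) * P X Z α β f =
      ∑ f ∈ Icc F0 F1, R f / f := by
    apply sum_congr rfl
    intro f hf
    rw [mem_Icc] at hf
    have : (f:ℝ) ≠ 0 := by
      have : 0 < f := by omega
      positivity
    rw [hR]
    field_simp
  rw [e1, abel R F0 F1 h0 (by omega)]
  have hS : ∀ j, F0 ≤ j → j ≤ F1 → ∑ f ∈ Icc F0 j, R f ≤ j * W := by
    intro j hj0 hj1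
    have hj0r : (F0 : ℝ) ≤ j := by exact_mod_cast hj0
    have hj1r : (j : ℝ) ≤ F1 := by exact_mod_cast hj1
    refine le_trans ?_ ((P_sparse X Z α β S hS hβ B hB hB0 j).trans ?_)
    · exact sum_le_sum_of_subset_of_nonneg (Icc_subset_Icc_left h0) fun f _ _ => hR0 f
    · have a1 : Real.sqrt X + j ≤ j * (Real.sqrt X / F0 + 1) := by
        have : Real.sqrt X ≤ j * (Real.sqrt X / F0) := by
          rw [mul_div_assoc', le_div_iff₀ (by linarith), mul_comm]
          exact mul_le_mul_of_nonneg_right hj0r (Real.sqrt_nonneg _)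
        linarith
      have a2 : Real.sqrt (j * B) ≤ Real.sqrt (F1 * B) :=
        Real.sqrt_le_sqrt (mul_le_mul_of_nonneg_right hj1r hB0)
      calc 3 * (Real.sqrt X + j) * (Real.sqrt (∑ b ∈ Icc 1 X, α b ^ 2) *
          (Real.sqrt S.card * j + S.card * Real.sqrt (j * B))) ≤
          3 * (j * (Real.sqrt X / F0 + 1)) * (Real.sqrt (∑ b ∈ Icc 1 X, α b ^ 2) *
          (Real.sqrt S.card * F1 + S.card * Real.sqrt (F1 * B))) := by gcongr
        _ = j * W := by rw [hW]; ring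
  have t1 : (∑ f ∈ Icc F0 F1, R f) / ((F1:ℝ) + 1) ≤ W := by
    rw [div_le_iff₀ (by positivity)]
    refine (hS F1 hge le_rfl).trans ?_
    nlinarith
  have t2 : ∀ j ∈ Icc F0 F1, (∑ f ∈ Icc F0 j, R f) / ((j:ℝ) * (j + 1)) ≤ W * (1 / j) := by
    intro j hj
    rw [mem_Icc] at hj
    have hj0 : (0:ℝ) < j := by
      have : 0 < j := by omega
      positivity
    rw [div_le_iff₀ (by positivity)]
    refine (hS j hj.1 hj.2).trans ?_
    have : W * (1 / (j : ℝ)) * (j * (j + 1)) = (j + 1) * W := by field_simp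
    rw [this]
    nlinarith
  have t4 : ∑ j ∈ Icc F0 F1, (1 / (j:ℝ)) ≤ 1 + Real.log F1 := by
    have h2 := harmonic_le_one_add_log F1
    rw [harmonic_eq_sum_Icc] at h2
    push_cast at h2
    refine le_trans ?_ h2
    simp_rw [one_div]
    exact sum_le_sum_of_subset_of_nonneg (Icc_subset_Icc_left h0) fun f _ _ => by positivity
  have t6 : ∑ j ∈ Icc F0 F1, (∑ f ∈ Icc F0 j, R f) / ((j:ℝ) * (j + 1)) ≤ W * (1 + Real.log F1) := by
    refine (sum_le_sum t2).trans ?_
    rw [← mul_sum]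
    exact mul_le_mul_of_nonneg_left t4 hW0
  refine (add_le_add t1 t6).trans (le_of_eq ?_)
  rw [hW]
  ring

/-- the error term on average over `S` -/
theorem err_sparse (X Z F0 D : ℕ) (B : ℝ) (hB : ∀ m, 1 ≤ m → m ≤ Z → (m.divisors.card : ℝ) ≤ B)
    (hB0 : 0 ≤ B) (α : ℕ → ℝ) (S : Finset ℕ) (hS : S ⊆ Icc 1 Z) (hF0 : 1 ≤ F0)
    (hF0D : F0 ≤ D) (c : ℕ → ℝ) (K : ℝ) (hK : 0 ≤ K) (hc : ∀ d, |c d| ≤ K)
    (hsq : ∀ d, c d ≠ 0 → Squarefree d) (R : ℝ)
    (hR : ∀ g : ℕ, 1 ≤ g → g ≤ D → ∑ b ∈ (Icc 1 X).filter (fun b => ¬ b.Coprime g), |α b| ≤ R) :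
    |∑ d ∈ Icc 1 D, c d * ∑ n ∈ S.filter (fun n => n.Coprime d), Ed X α d n| ≤
      K * (Sc 1 D * (S.card * (∑ f ∈ Icc 2 F0, (1 / (Nat.totient f : ℝ)) * PA X α f + F0 * R) +
        3 * (Real.sqrt X / F0 + 1) * (2 + Real.log D) *
        (Real.sqrt (∑ b ∈ Icc 1 X, α b ^ 2) * (Real.sqrt S.card * D + S.card * Real.sqrt (D * B))))) := by
  classical
  have hD1 : 1 ≤ D := hF0.trans hF0D
  set G : ℕ → ℕ → ℝ := fun g f => (1 / (Nat.totient g : ℝ)) * ((1 / (Nat.totient f : ℝ)) *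
    P X Z (res g α) (res g (ind S)) f) with hG
  have hG0 : ∀ g f, 0 ≤ G g f := fun g f =>
    mul_nonneg (by positivity) (mul_nonneg (by positivity) (P_nonneg _ _ _ _ _))
  set M : Finset ℕ := (Icc 1 D).filter Squarefree with hM
  have s1 : |∑ d ∈ Icc 1 D, c d * ∑ n ∈ S.filter (fun n => n.Coprime d), Ed X α d n| ≤
      K * ∑ d ∈ M, ∑ f ∈ d.divisors.filter (fun f => f ≠ 1), G (d / f) f := by
    have h1 : ∑ d ∈ Icc 1 D, c d * ∑ n ∈ S.filter (fun n => n.Coprime d), Ed X α d n =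
        ∑ d ∈ M, c d * ∑ n ∈ S.filter (fun n => n.Coprime d), Ed X α d n := by
      rw [hM, sum_filter]
      apply sum_congr rfl
      intro d _
      split_ifs with h
      · rfl
      · have : c d = 0 := by
          by_contra hne
          exact h (hsq d hne)
        rw [this, zero_mul]
    rw [h1, mul_sum]
    refine (abs_sum_le_sum_abs _ _).trans (sum_le_sum fun d hd => ?_)
    rw [hM, mem_filter, mem_Icc] at hd
    rw [abs_mul]
    apply mul_le_mul (hc d) _ (abs_nonneg _) hK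
    refine (ed_sum X Z α S hS d (by omega)).trans (sum_le_sum fun f hf => ?_)
    rw [mem_filter, Nat.mem_divisors] at hf
    obtain ⟨⟨⟨g, rfl⟩, -⟩, hf1⟩ := hf
    have hf0 : 0 < f := Nat.pos_of_ne_zero (by rintro rfl; simp at hd)
    have hg0 : 0 < g := Nat.pos_of_ne_zero (by rintro rfl; simp at hd)
    rw [Nat.mul_div_cancel_left g hf0]
    have hcop2 : f.Coprime g := Nat.coprime_of_squarefree_mul hd.2
    rw [Nat.totient_mul hcop2]
    apply le_of_eq
    simp only [hG]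
    push_cast
    have htf : (0 : ℝ) < Nat.totient f := by exact_mod_cast Nat.totient_pos.mpr hf0
    have htg0 : (0 : ℝ) < Nat.totient g := by exact_mod_cast Nat.totient_pos.mpr hg0
    field_simp
  have s4 : ∑ d ∈ M, ∑ f ∈ d.divisors.filter (fun f => f ≠ 1), G (d / f) f ≤
      ∑ g ∈ M, ∑ f ∈ Icc 2 D, G g f := by
    rw [sum_sigma', ← sum_product']
    have e6 : ∑ x ∈ M.sigma (fun m => m.divisors.filter (fun f => f ≠ 1)), G (x.1 / x.2) x.2 =
        ∑ p ∈ (M.sigma (fun m => m.divisors.filter (fun f => f ≠ 1))).image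
          (fun x : (_ : ℕ) × ℕ => (x.1 / x.2, x.2)), G p.1 p.2 := by
      rw [sum_image]
      rintro ⟨m, f⟩ hx ⟨m', f'⟩ hx' heq
      simp only [Finset.mem_coe, mem_sigma, mem_filter, Nat.mem_divisors] at hx hx'
      simp only [Prod.mk.injEq] at heq
      obtain ⟨h7, h8⟩ := heq
      subst h8
      have : m = m' := by
        rw [← Nat.div_mul_cancel hx.2.1.1, h7, Nat.div_mul_cancel hx'.2.1.1]
      subst this
      rfl
    rw [e6]
    apply sum_le_sum_of_subset_of_nonneg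
    · intro p hp
      rw [mem_image] at hp
      obtain ⟨⟨m, f⟩, hx, rfl⟩ := hp
      simp only [mem_sigma, mem_filter, Nat.mem_divisors] at hx
      obtain ⟨hm, ⟨hfm, hm0⟩, hf1⟩ := hx
      rw [hM, mem_filter, mem_Icc] at hm
      have hf0 : 0 < f := Nat.pos_of_dvd_of_pos hfm hm.1.1
      simp only [mem_product, mem_Icc, hM, mem_filter]
      refine ⟨⟨⟨Nat.div_pos (Nat.le_of_dvd hm.1.1 hfm) hf0, (Nat.div_le_self m f).trans hm.1.2⟩,
        ?_⟩, by omega, (Nat.le_of_dvd hm.1.1 hfm).trans hm.1.2⟩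
      exact hm.2.squarefree_of_dvd (Nat.div_dvd_of_dvd hfm)
    · intro p _ _
      exact hG0 _ _
  set BVs : ℝ := ∑ f ∈ Icc 2 F0, (1 / (Nat.totient f : ℝ)) * PA X α f with hBVs
  set T2 : ℝ := 3 * (Real.sqrt X / F0 + 1) * (2 + Real.log D) *
    (Real.sqrt (∑ b ∈ Icc 1 X, α b ^ 2) * (Real.sqrt S.card * D + S.card * Real.sqrt (D * B))) with hT2
  have s5 : ∀ g ∈ M, ∑ f ∈ Icc 2 D, G g f ≤ (1 / (Nat.totient g : ℝ)) *
      (S.card * (BVs + F0 * R) + T2) := by
    intro g hg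
    rw [hM, mem_filter, mem_Icc] at hg
    rw [hG, ← mul_sum]
    apply mul_le_mul_of_nonneg_left _ (by positivity)
    have hsplit : Icc 2 D ⊆ Icc 2 F0 ∪ Icc (F0 + 1) D := by
      intro f hf
      rw [mem_Icc] at hf
      rw [mem_union, mem_Icc, mem_Icc]
      omega
    have hnn : ∀ f, 0 ≤ (1 / (Nat.totient f : ℝ)) * P X Z (res g α) (res g (ind S)) f :=
      fun f => mul_nonneg (by positivity) (P_nonneg _ _ _ _ _)
    have u1 : ∑ f ∈ Icc 2 D, (1 / (Nat.totient f : ℝ)) * P X Z (res g α) (res g (ind S)) f ≤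
        ∑ f ∈ Icc 2 F0, (1 / (Nat.totient f : ℝ)) * P X Z (res g α) (res g (ind S)) f +
        ∑ f ∈ Icc (F0 + 1) D, (1 / (Nat.totient f : ℝ)) * P X Z (res g α) (res g (ind S)) f := by
      refine (sum_le_sum_of_subset_of_nonneg hsplit (fun f _ _ => hnn f)).trans ?_
      rw [← sum_union_inter]
      have : 0 ≤ ∑ f ∈ Icc 2 F0 ∩ Icc (F0 + 1) D,
        (1 / (Nat.totient f : ℝ)) * P X Z (res g α) (res g (ind S)) f :=
        sum_nonneg fun f _ => hnn f
      linarith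
    have u2 : ∑ f ∈ Icc 2 F0, (1 / (Nat.totient f : ℝ)) * P X Z (res g α) (res g (ind S)) f ≤
        S.card * (BVs + F0 * R) := by
      have v1 : ∀ f ∈ Icc 2 F0, (1 / (Nat.totient f : ℝ)) *
          P X Z (res g α) (res g (ind S)) f ≤
          S.card * ((1 / (Nat.totient f : ℝ)) * PA X α f + R) := by
        intro f hf
        rw [mem_Icc] at hf
        have htf : (0 : ℝ) < Nat.totient f := by
          exact_mod_cast Nat.totient_pos.mpr (by omega)
        have hR0 : 0 ≤ R := (sum_nonneg fun b _ => abs_nonneg _).trans (hR g hg.1.1 hg.1.2)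
        have v2 : P X Z (res g α) (res g (ind S)) f ≤ S.card * (PA X α f + Nat.totient f * R) := by
          unfold P PA
          calc ∑ ψ ∈ (univ : Finset (DirichletCharacter ℂ f)).filter (fun χ => χ.IsPrimitive),
              ‖A X (res g α) f ψ‖ * ‖A Z (res g (ind S)) f ψ‖ ≤
              ∑ ψ ∈ (univ : Finset (DirichletCharacter ℂ f)).filter (fun χ => χ.IsPrimitive),
              (‖A X α f ψ‖ + R) * S.card := by
                apply sum_le_sum
                intro ψ _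
                apply mul_le_mul _ (A_le_card Z g f S hS ψ) (norm_nonneg _) (by positivity)
                exact (A_res_le X g f α ψ).trans (add_le_add le_rfl (hR g hg.1.1 hg.1.2))
            _ = S.card * (∑ ψ ∈ (univ : Finset (DirichletCharacter ℂ f)).filter
                (fun χ => χ.IsPrimitive), ‖A X α f ψ‖ +
                (((univ : Finset (DirichletCharacter ℂ f)).filter
                (fun χ => χ.IsPrimitive)).card : ℝ) * R) := by
                rw [← sum_mul, sum_add_distrib, sum_const, nsmul_eq_mul]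
                ring
            _ ≤ _ := by
                apply mul_le_mul_of_nonneg_left _ (by positivity)
                apply add_le_add le_rfl
                apply mul_le_mul_of_nonneg_right _ hR0
                exact card_prim f (by omega)
        calc (1 / (Nat.totient f : ℝ)) * P X Z (res g α) (res g (ind S)) f ≤
            (1 / (Nat.totient f : ℝ)) * (S.card * (PA X α f + Nat.totient f * R)) :=
              mul_le_mul_of_nonneg_left v2 (by positivity)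
          _ = S.card * ((1 / (Nat.totient f : ℝ)) * PA X α f + R) := by
              field_simp
      refine (sum_le_sum v1).trans ?_
      rw [← mul_sum, sum_add_distrib, sum_const, nsmul_eq_mul, Nat.card_Icc]
      apply mul_le_mul_of_nonneg_left _ (by positivity)
      apply add_le_add le_rfl
      have hR0 : 0 ≤ R := (sum_nonneg fun b _ => abs_nonneg _).trans (hR g hg.1.1 hg.1.2)
      apply mul_le_mul_of_nonneg_right _ hR0
      have : F0 + 1 - 2 ≤ F0 := by omega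
      exact_mod_cast this
    have u3 : ∑ f ∈ Icc (F0 + 1) D, (1 / (Nat.totient f : ℝ)) *
        P X Z (res g α) (res g (ind S)) f ≤ T2 := by
      refine (sparse45 X Z (res g α) (res g (ind S)) S hS (res_ind S g) B hB hB0 (F0 + 1) D
        (by omega) hD1).trans ?_
      rw [hT2]
      have hlogD : 0 ≤ Real.log D := Real.log_natCast_nonneg D
      have w1 : Real.sqrt (∑ b ∈ Icc 1 X, res g α b ^ 2) ≤ Real.sqrt (∑ b ∈ Icc 1 X, α b ^ 2) :=
        res_sq _ _ _
      have w3 : Real.sqrt X / ((F0 + 1 : ℕ) : ℝ) ≤ Real.sqrt X / F0 := by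
        apply div_le_div_of_nonneg_left (Real.sqrt_nonneg _) (by exact_mod_cast hF0)
        push_cast
        linarith
      apply mul_le_mul _ (mul_le_mul_of_nonneg_right w1 (by positivity)) (by positivity) (by positivity)
      apply mul_le_mul_of_nonneg_right _ (by positivity)
      linarith
    linarith
  refine s1.trans (mul_le_mul_of_nonneg_left ?_ hK)
  refine s4.trans ((sum_le_sum s5).trans ?_)
  rw [← sum_mul]
  have s6 : ∑ g ∈ M, (1 / (Nat.totient g : ℝ)) = Sc 1 D := by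
    unfold Sc
    rw [hM]
    apply sum_congr rfl
    intro g _
    rw [one_pow]
  rw [s6]


end Pool.Agent.Z476
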