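import Pool.Agent.Z476.Blk

/-! Parameters of the weights; all even numbers. -/

set_option autoImplicit false

namespace Pool.Agent.Z476

open Finset Filter MeasureTheory
open Pool.Agent.Y882
open Pool.Agent.Y882.GW

theorem integ (τ υ : ℝ) (hτ : 0 < τ) (hζυ : τ / 4 ≤ υ) (hυτ : υ < τ) :
    ∫ x in (τ / 4)..υ, (Real.log 3 / Real.log 4 - Real.log 3 / Real.log 4 / υ * x) / (τ - x) / x <
      Real.log (τ / (τ / 4) - 1) / τ := by
  have hl3 : 0 < Real.log 3 := Real.log_pos (by norm_num)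
  have hl4 : 0 < Real.log 4 := Real.log_pos (by norm_num)
  set lam : ℝ := Real.log 3 / Real.log 4 with hlam
  have hlam0 : 0 < lam := by positivity
  have hζ0 : 0 < τ / 4 := by positivity
  have hυ0 : 0 < υ := by linarith
  have e1 : τ / (τ / 4) - 1 = 3 := by field_simp; norm_num
  rw [e1]
  have hint : IntervalIntegrable (fun x : ℝ => (lam - lam / υ * x) / (τ - x) / x) volume (τ / 4) υ := by
    apply ContinuousOn.intervalIntegrable
    rw [Set.uIcc_of_le hζυ]
    apply ContinuousOn.div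
    · apply ContinuousOn.div
      · fun_prop
      · fun_prop
      · intro x hx
        have := hx.2
        have : 0 < τ - x := by linarith
        exact this.ne'
    · fun_prop
    · intro x hx
      have := hx.1
      have : 0 < x := by linarith
      exact this.ne'
  have hint2 : IntervalIntegrable (fun x : ℝ => (lam / τ) * x⁻¹) volume (τ / 4) υ := by
    apply ContinuousOn.intervalIntegrable
    rw [Set.uIcc_of_le hζυ]
    apply ContinuousOn.mul
    · fun_prop
    · apply ContinuousOn.inv₀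
      · fun_prop
      · intro x hx
        have := hx.1
        have : 0 < x := by linarith
        exact this.ne'
  have h1 : ∫ x in (τ / 4)..υ, (lam - lam / υ * x) / (τ - x) / x ≤
      ∫ x in (τ / 4)..υ, (lam / τ) * x⁻¹ := by
    apply intervalIntegral.integral_mono_on hζυ hint hint2
    intro x hx
    have hx0 : 0 < x := by linarith [hx.1]
    have hx1 : 0 < τ - x := by linarith [hx.2]
    rw [← div_eq_mul_inv]
    apply div_le_div_of_nonneg_right _ hx0.le
    rw [div_le_div_iff₀ hx1 hτ]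
    have e2 : (lam - lam / υ * x) * τ = lam * τ - lam * x * (τ / υ) := by
      field_simp
    rw [e2]
    have h3 : 1 ≤ τ / υ := by
      rw [le_div_iff₀ hυ0]
      linarith
    have h4 : lam * x * 1 ≤ lam * x * (τ / υ) := mul_le_mul_of_nonneg_left h3 (by positivity)
    linarith
  have h2 : ∫ x in (τ / 4)..υ, (lam / τ) * x⁻¹ = (lam / τ) * Real.log (υ / (τ / 4)) := by
    rw [intervalIntegral.integral_const_mul, integral_inv_of_pos hζ0 hυ0]
  have h3 : Real.log (υ / (τ / 4)) < Real.log 4 := by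
    apply Real.log_lt_log (by positivity)
    rw [div_lt_iff₀ hζ0]
    linarith
  calc ∫ x in (τ / 4)..υ, (lam - lam / υ * x) / (τ - x) / x ≤
      (lam / τ) * Real.log (υ / (τ / 4)) := by rw [← h2]; exact h1
    _ < (lam / τ) * Real.log 4 := mul_lt_mul_of_pos_left h3 (by positivity)
    _ = Real.log 3 / τ := by
      rw [hlam]
      field_simp

open Classical in
/-- all even numbers -/
theorem all (r : ℕ) (θ η : ℝ) (hθ0 : 0 < θ) (hθ1 : θ ≤ 1) (hη : η < θ / 8)
    (hr : 2 / θ + Real.log 4 / Real.log 3 < r + 1) :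
    ∃ δ : ℝ, 0 < δ ∧ ∃ N0 : ℕ, ∀ N : ℕ, N0 ≤ N → Even N → ∀ x : ℝ, (N : ℝ) ^ θ ≤ x → x ≤ N / 2 →
      δ * sgs N * (x / Real.log N ^ 2) ≤ ((gd r x ((N : ℝ) ^ η) N).card : ℝ) := by
  have hl3 : 0 < Real.log 3 := Real.log_pos (by norm_num)
  have hl4 : 0 < Real.log 4 := Real.log_pos (by norm_num)
  set c : ℝ := r + 1 - Real.log 4 / Real.log 3 with hc
  have hcθ : 2 / θ < c := by linarith
  have hc0 : 0 < c := lt_trans (by positivity) hcθ
  have hcθ' : 1 / c < θ / 2 := by
    rw [div_lt_iff₀ hc0]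
    rw [div_lt_iff₀ hθ0] at hcθ
    linarith
  have hc1 : 0 < 1 / c := by positivity
  set υ : ℝ := (1 / c + θ / 2) / 2 with hυ
  have hυ1 : 1 / c < υ := by rw [hυ]; linarith
  have hυ2 : υ < θ / 2 := by rw [hυ]; linarith
  have hυ3 : θ / 4 < υ := by rw [hυ]; linarith
  have hυ0 : 0 < υ := by linarith
  set m : ℝ := max υ (4 * η) with hm
  have hm1 : m < θ / 2 := max_lt hυ2 (by linarith)
  have hm2 : υ ≤ m := le_max_left _ _
  have hm3 : 4 * η ≤ m := le_max_right _ _
  set τ : ℝ := (m + θ / 2) / 2 with hτ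
  have hτ1 : m < τ := by rw [hτ]; linarith
  have hτ2 : τ < θ / 2 := by rw [hτ]; linarith
  have hτ0 : 0 < τ := by linarith
  set S : ℝ := υ * c with hS
  have hS1 : 1 < S := by
    rw [div_lt_iff₀ hc0] at hυ1
    exact hυ1
  have hlam : 0 < Real.log 3 / Real.log 4 := by positivity
  obtain ⟨δ, hδ, Y0, H⟩ := block r θ τ (τ / 4) υ (Real.log 3 / Real.log 4) S hθ0 hθ1 (by positivity)
    (by linarith) (by linarith) hτ2 (by linarith) (by linarith) hlam
    (integ τ υ hτ0 (by linarith) (by linarith)) hS1 (by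
      rw [hS, one_div_div, mul_div_cancel_left₀ _ hυ0.ne']
      linarith)
  have ev1 : ∀ᶠ N : ℕ in atTop, (2 : ℝ) ≤ (N : ℝ) ^ (τ / 4 - η) :=
    ((tendsto_rpow_atTop (by linarith)).comp tendsto_natCast_atTop_atTop).eventually_ge_atTop _
  obtain ⟨N1, hN1⟩ := eventually_atTop.1 ev1
  refine ⟨δ, hδ, max (max N1 (2 * Y0)) 4, ?_⟩
  intro N hN hev x hx1 hx2
  have hN4 : 4 ≤ N := (le_max_right _ _).trans hN
  have hNY : 2 * Y0 ≤ N := ((le_max_right _ _).trans (le_max_left _ _)).trans hN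
  have e1 := hN1 N (((le_max_left _ _).trans (le_max_left _ _)).trans hN)
  obtain ⟨Y, hY⟩ := hev
  have hYN : N = 2 * Y := by omega
  have hNr : (N : ℝ) = 2 * Y := by rw [hYN]; push_cast; ring
  have hY2 : (2 : ℝ) ≤ Y := by
    have : 2 ≤ Y := by omega
    exact_mod_cast this
  have hY0 : (0 : ℝ) < Y := by linarith
  have hN0 : (0 : ℝ) < N := by rw [hNr]; linarith
  have h1 := H Y (by omega) x (by
    refine le_trans ?_ hx1
    apply Real.rpow_le_rpow hY0.le _ hθ0.le
    rw [hNr]; linarith) (by rw [hNr] at hx2; linarith) N (by omega) (by omega) ⟨Y, hY⟩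
  have hlY : 0 < Real.log Y := Real.log_pos (by linarith)
  have hlYN : Real.log Y ≤ Real.log N := Real.log_le_log hY0 (by rw [hNr]; linarith)
  have hx0 : 0 ≤ x := le_trans (by positivity) hx1
  have hs1 := one_le_sgs N
  have h2 : δ * sgs N * (x / Real.log N ^ 2) ≤ δ * x / Real.log Y ^ 2 * sgs N := by
    have h3 : x / Real.log N ^ 2 ≤ x / Real.log Y ^ 2 :=
      div_le_div_of_nonneg_left hx0 (by positivity) (pow_le_pow_left₀ hlY.le hlYN 2)
    calc δ * sgs N * (x / Real.log N ^ 2) ≤ δ * sgs N * (x / Real.log Y ^ 2) :=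
          mul_le_mul_of_nonneg_left h3 (mul_nonneg hδ.le (by linarith))
      _ = _ := by ring
  have h4 : (N : ℝ) ^ η ≤ (Y : ℝ) ^ (τ / 4) := by
    have h5 : (N : ℝ) ^ (τ / 4) = (N : ℝ) ^ (τ / 4 - η) * (N : ℝ) ^ η := by
      rw [← Real.rpow_add hN0]
      congr 1
      ring
    have h6 : (N : ℝ) ^ (τ / 4) ≤ 2 * (Y : ℝ) ^ (τ / 4) := by
      rw [hNr, Real.mul_rpow (by norm_num) hY0.le]
      apply mul_le_mul_of_nonneg_right _ (by positivity)
      calc (2 : ℝ) ^ (τ / 4) ≤ 2 ^ (1 : ℝ) :=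
            Real.rpow_le_rpow_of_exponent_le (by norm_num) (by linarith)
        _ = 2 := Real.rpow_one _
    have h7 : 2 * (N : ℝ) ^ η ≤ (N : ℝ) ^ (τ / 4 - η) * (N : ℝ) ^ η :=
      mul_le_mul_of_nonneg_right e1 (by positivity)
    linarith
  have h5 : ((gd r x ((Y : ℝ) ^ (τ / 4)) N).card : ℝ) ≤ ((gd r x ((N : ℝ) ^ η) N).card : ℝ) := by
    have : gd r x ((Y : ℝ) ^ (τ / 4)) N ⊆ gd r x ((N : ℝ) ^ η) N := by
      intro p hp
      unfold gd at hp ⊢
      rw [mem_filter] at hp ⊢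
      obtain ⟨a1, a2, a3, a4, a5, a6⟩ := hp
      exact ⟨a1, a2, a3, a4, a5, fun q hq hqd => h4.trans (a6 q hq hqd)⟩
    exact_mod_cast card_le_card this
  exact h2.trans (h1.trans h5)

end Pool.Agent.Z476
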