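import Pool.Agent.Z476.Par
import Pool.Agent.Z476.Sp

/-! Almost primes `n - p` with very few exceptions: blocks and parameters. -/

set_option autoImplicit false

namespace Pool.Agent.Z476

open Finset Filter
open Pool.Agent.W23.DC
open Pool.Agent.Y882
open Pool.Agent.Y882.PX
open Pool.Agent.Y882.KW
open Pool.Agent.Y882.SI
open Pool.Agent.Y882.GW

open Classical in
/-- medium squares, pointwise, all sizes -/
theorem medium2 (ζ ξ : ℝ) (hζ : 0 < ζ) (hξ : ξ ≤ 1) : ∃ Y0 : ℕ, ∀ Y : ℕ, Y0 ≤ Y → ∀ X n : ℕ,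
      (((Icc 1 X).filter (fun m => SBad Y ζ ξ n m)).card : ℝ) ≤ X * (2 / (Y : ℝ) ^ ζ) + (Y : ℝ) ^ ξ := by
  obtain ⟨Y0, H⟩ := pr_sq ζ ξ hζ hξ
  refine ⟨max Y0 2, fun Y hY X n => ?_⟩
  obtain ⟨g1, g2⟩ := H Y ((le_max_left _ _).trans hY)
  have hY2 : 2 ≤ Y := (le_max_right _ _).trans hY
  have hX0 : (0 : ℝ) ≤ X := Nat.cast_nonneg _
  have hsub : (Icc 1 X).filter (fun m => SBad Y ζ ξ n m) ⊆ (pr Y ζ ξ).biUnion
      (fun q => (Icc 1 X).filter (fun m : ℕ => ((q ^ 2 : ℕ) : ℤ) ∣ (m : ℤ) - n)) := by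
    intro m hm
    rw [mem_filter] at hm
    obtain ⟨hm1, q, hq, hqn⟩ := hm
    rw [mem_biUnion]
    refine ⟨q, hq, ?_⟩
    rw [mem_filter]
    refine ⟨hm1, ?_⟩
    rw [← neg_sub]
    exact hqn.neg_right
  calc (((Icc 1 X).filter (fun m => SBad Y ζ ξ n m)).card : ℝ) ≤
      ((∑ q ∈ pr Y ζ ξ, ((Icc 1 X).filter
        (fun m : ℕ => ((q ^ 2 : ℕ) : ℤ) ∣ (m : ℤ) - n)).card : ℕ) : ℝ) := by
        exact_mod_cast (card_le_card hsub).trans card_biUnion_le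
    _ ≤ ∑ q ∈ pr Y ζ ξ, (X * (1 / (q : ℝ) ^ 2) + 1) := by
        push_cast
        apply sum_le_sum
        intro q hq
        obtain ⟨hq1, _, hq3⟩ := pr_mem Y q ζ ξ hY2 hq
        have h5 := class_count (q ^ 2) (pow_pos hq1.pos 2) X n
        push_cast at h5
        refine h5.trans (le_of_eq ?_)
        ring
    _ = X * ∑ q ∈ pr Y ζ ξ, 1 / (q : ℝ) ^ 2 + (pr Y ζ ξ).card := by
        rw [sum_add_distrib, ← mul_sum, sum_const, nsmul_eq_mul, mul_one]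
    _ ≤ _ := add_le_add (mul_le_mul_of_nonneg_left g1 hX0) g2

open Classical in
theorem blk2 (r : ℕ) (θ τ ζ υ lam S : ℝ) (hθ0 : 0 < θ) (hθ1 : θ ≤ 1) (hζ0 : 0 < ζ)
    (h2 : 2 * ζ < τ) (h4 : τ ≤ 4 * ζ) (hτθ : τ < θ) (hζυ : ζ ≤ υ) (hυτ : υ < τ)
    (hlam : 0 < lam)
    (hJ0 : ∫ x in ζ..υ, (lam - lam / υ * x) / (τ - x) / x < Real.log (τ / ζ - 1) / τ)
    (hS : 1 < S) (hr : 1 / lam + S / υ ≤ r + 1) (ε : ℝ) (hε : 0 < ε) :
    ∃ δ : ℝ, 0 < δ ∧ ∃ Y0 : ℕ, ∀ Y : ℕ, Y0 ≤ Y → ∀ x : ℝ, (Y : ℝ) ^ θ ≤ x → x ≤ Y →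
      (((Ioc Y (2 * Y)).filter (fun n : ℕ => Even n ∧ ((gd r x ((Y : ℝ) ^ ζ) n).card : ℝ) <
        δ * x / Real.log Y ^ 2 * sgs n)).card : ℝ) ≤ (Y : ℝ) ^ (max (2 * τ - θ) 0 + ε) := by
  have hυ0 : 0 < υ := by linarith
  have hυ1 : υ ≤ 1 := by linarith
  have hυθ : υ < θ := by linarith
  obtain ⟨δ, hδ, Y1, HD⟩ := dyad θ τ ζ υ lam (lam / υ) ε hθ0 hθ1 hζ0 h2 h4 hτθ hζυ hυτ
    hlam.le (by positivity) (by rw [div_mul_cancel₀ _ hυ0.ne']) hJ0 hε
  obtain ⟨Y3, HM⟩ := medium2 ζ υ hζ0 hυ1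
  have ev1 := polylog (8 / δ) 2 ζ hζ0
  have ev2 := polylog (4 / δ) 2 (θ - υ) (by linarith)
  have ev3 : ∀ᶠ Y : ℕ in atTop, (2 : ℝ) ≤ (Y : ℝ) ^ (S - 1) :=
    ((tendsto_rpow_atTop (by linarith)).comp tendsto_natCast_atTop_atTop).eventually_ge_atTop _
  have ev5 : ∀ᶠ Y : ℕ in atTop, (4 : ℝ) ≤ (Y : ℝ) ^ θ :=
    ((tendsto_rpow_atTop hθ0).comp tendsto_natCast_atTop_atTop).eventually_ge_atTop _
  obtain ⟨Y4, hY4⟩ := eventually_atTop.1
    (ev1.and (ev2.and (ev3.and (ev5.and (eventually_ge_atTop 3)))))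
  refine ⟨δ / 2, by positivity, max Y1 (max Y3 Y4), ?_⟩
  intro Y hY x hYx hxY
  obtain ⟨e1, e2, e3, e5, e6⟩ := hY4 Y (((le_max_right _ _).trans (le_max_right _ _)).trans hY)
  have hY1 : Y1 ≤ Y := (le_max_left _ _).trans hY
  have hY3 : Y3 ≤ Y := ((le_max_left _ _).trans (le_max_right _ _)).trans hY
  have hYr : (3 : ℝ) ≤ Y := by exact_mod_cast e6
  have hY0 : (0 : ℝ) < Y := by linarith
  have hY1r : (1 : ℝ) ≤ Y := by linarith
  have hlY : 0 < Real.log Y := Real.log_pos (by linarith)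
  have hx0 : 0 < x := by linarith
  apply HD Y hY1 x hYx hxY
  intro n hn
  rw [mem_filter, mem_Ioc] at hn
  obtain ⟨⟨hn1, hn2⟩, hev, hlt⟩ := hn
  refine ⟨hn1, hn2, hev, ?_⟩
  set X : ℕ := ⌊x⌋₊ with hX
  have hXx : (X : ℝ) ≤ x := Nat.floor_le hx0.le
  have hX1 : 1 ≤ X := Nat.le_floor (by push_cast; linarith)
  have hXpos : (0 : ℝ) < X := by exact_mod_cast hX1
  have g3 := HM Y hY3 X n
  have hkey : GW.cnt x (WW Y ζ υ lam (lam / υ)) n ≤ (gd r x ((Y : ℝ) ^ ζ) n).card +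
      ((Icc 1 X).filter (fun m => SBad Y ζ υ n m)).card := by
    unfold GW.cnt
    have h7 : (Icc 1 ⌊x⌋₊).filter (fun p : ℕ => p.Prime ∧ x / 2 < p ∧ (p : ℝ) < x ∧
        0 < WW Y ζ υ lam (lam / υ) (n - p)) ⊆ gd r x ((Y : ℝ) ^ ζ) n ∪
        (Icc 1 X).filter (fun m => SBad Y ζ υ n m) := by
      intro p hp
      rw [mem_filter] at hp
      obtain ⟨hp1, hp2, hp3, hp4, hp5⟩ := hp
      rw [mem_union]
      by_cases hb : SBad Y ζ υ n p
      · right
        rw [mem_filter]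
        exact ⟨hp1, hb⟩
      · left
        have hpn : p < n := by
          have : (p : ℝ) < n := by
            have h8 : (Y : ℝ) < n := by exact_mod_cast hn1
            linarith
          exact_mod_cast this
        have hres := almost Y (by omega) ζ υ lam S r hζυ hυ0 hυ1 hlam hr (n - p)
          (by omega) (by
            have h8 : ((n - p : ℕ) : ℝ) ≤ 2 * Y := by
              have : n - p ≤ 2 * Y := by omega
              exact_mod_cast this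
            refine h8.trans ?_
            calc 2 * (Y : ℝ) ≤ (Y : ℝ) ^ (S - 1) * (Y : ℝ) ^ (1 : ℝ) := by
                  rw [Real.rpow_one]
                  exact mul_le_mul_of_nonneg_right e3 hY0.le
              _ = (Y : ℝ) ^ S := by
                  rw [← Real.rpow_add hY0]
                  congr 1
                  ring) hp5 (by
            intro q hq hqd
            apply hb
            refine ⟨q, hq, ?_⟩
            have h9 : ((n - p : ℕ) : ℤ) = (n : ℤ) - p := by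
              rw [Nat.cast_sub hpn.le]
            rw [← h9]
            exact_mod_cast hqd)
        unfold gd
        rw [mem_filter]
        exact ⟨hp1, hp2, hp3, hp4, hres.1, hres.2⟩
    exact (card_le_card h7).trans (card_union_le _ _)
  have hkr : (GW.cnt x (WW Y ζ υ lam (lam / υ)) n : ℝ) ≤ ((gd r x ((Y : ℝ) ^ ζ) n).card : ℝ) +
      (((Icc 1 X).filter (fun m => SBad Y ζ υ n m)).card : ℝ) := by exact_mod_cast hkey
  have hs1 := one_le_sgs n
  have hsm1 : (X : ℝ) * (2 / (Y : ℝ) ^ ζ) ≤ δ / 4 * x / Real.log Y ^ 2 := by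
    calc (X : ℝ) * (2 / (Y : ℝ) ^ ζ) ≤ x * (2 / (Y : ℝ) ^ ζ) :=
          mul_le_mul_of_nonneg_right hXx (by positivity)
      _ = 2 * x / (Y : ℝ) ^ ζ := by ring
      _ ≤ δ / 4 * x / Real.log Y ^ 2 := by
          rw [div_le_div_iff₀ (by positivity) (by positivity)]
          have h8 : Real.log Y ^ 2 ≤ δ / 8 * (Y : ℝ) ^ ζ := by
            have h9 := mul_le_mul_of_nonneg_left e1 (show 0 ≤ δ / 8 by positivity)
            calc Real.log Y ^ 2 = δ / 8 * (8 / δ * Real.log Y ^ 2) := by field_simp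
              _ ≤ _ := h9
          calc 2 * x * Real.log Y ^ 2 ≤ 2 * x * (δ / 8 * (Y : ℝ) ^ ζ) :=
                mul_le_mul_of_nonneg_left h8 (by positivity)
            _ = δ / 4 * x * (Y : ℝ) ^ ζ := by ring
  have hsm2 : (Y : ℝ) ^ υ ≤ δ / 4 * x / Real.log Y ^ 2 := by
    rw [le_div_iff₀ (by positivity)]
    have h8 : Real.log Y ^ 2 ≤ δ / 4 * (Y : ℝ) ^ (θ - υ) := by
      have h9 := mul_le_mul_of_nonneg_left e2 (show 0 ≤ δ / 4 by positivity)
      calc Real.log Y ^ 2 = δ / 4 * (4 / δ * Real.log Y ^ 2) := by field_simp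
        _ ≤ _ := h9
    calc (Y : ℝ) ^ υ * Real.log Y ^ 2 ≤ (Y : ℝ) ^ υ * (δ / 4 * (Y : ℝ) ^ (θ - υ)) :=
          mul_le_mul_of_nonneg_left h8 (by positivity)
      _ = δ / 4 * ((Y : ℝ) ^ υ * (Y : ℝ) ^ (θ - υ)) := by ring
      _ = δ / 4 * (Y : ℝ) ^ θ := by
          rw [← Real.rpow_add hY0]
          congr 2
          ring
      _ ≤ δ / 4 * x := mul_le_mul_of_nonneg_left hYx (by positivity)
  have hsm : (((Icc 1 X).filter (fun m => SBad Y ζ υ n m)).card : ℝ) ≤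
      δ / 2 * x / Real.log Y ^ 2 * sgs n := by
    calc (((Icc 1 X).filter (fun m => SBad Y ζ υ n m)).card : ℝ) ≤
        δ / 4 * x / Real.log Y ^ 2 + δ / 4 * x / Real.log Y ^ 2 := by linarith
      _ = δ / 2 * x / Real.log Y ^ 2 := by ring
      _ ≤ δ / 2 * x / Real.log Y ^ 2 * sgs n := le_mul_of_one_le_right (by positivity) hs1
  have h11 : δ / 2 * x / Real.log Y ^ 2 * sgs n = δ * x / Real.log Y ^ 2 * sgs n / 2 := by ring
  rw [h11] at hsm hlt
  linarith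

open Classical in
/-- few exceptions, one block -/
theorem few (r : ℕ) (θ : ℝ) (hθ0 : 0 < θ) (hθ1 : θ ≤ 1) (c : ℝ)
    (hc : c = r + 1 - Real.log 4 / Real.log 3) (hcθ : 1 < c * θ) (ε : ℝ) (hε : 0 < ε) :
    ∃ δ : ℝ, 0 < δ ∧ ∃ Y0 : ℕ, ∀ Y : ℕ, Y0 ≤ Y → ∀ x : ℝ, (Y : ℝ) ^ θ ≤ x → x ≤ Y →
      (((Ioc Y (2 * Y)).filter (fun n : ℕ => Even n ∧ ((gd r x ((n : ℝ) ^ (1 / (4 * c))) n).card : ℝ) <
        δ * x / Real.log Y ^ 2 * sgs n)).card : ℝ) ≤ (Y : ℝ) ^ (max (2 / c - θ) 0 + ε) := by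
  have hl3 : 0 < Real.log 3 := Real.log_pos (by norm_num)
  have hl4 : 0 < Real.log 4 := Real.log_pos (by norm_num)
  have hc0 : 0 < c := by
    by_contra h
    push Not at h
    nlinarith
  have hcθ' : 1 / c < θ := by
    rw [div_lt_iff₀ hc0]
    linarith
  have hc1 : 0 < 1 / c := by positivity
  set s : ℝ := min (ε / 8) (min ((θ - 1 / c) / 4) (1 / c / 4)) with hs
  have hs0 : 0 < s := lt_min (by linarith) (lt_min (by linarith) (by linarith))
  have hs1 : s ≤ ε / 8 := min_le_left _ _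
  have hs2 : s ≤ (θ - 1 / c) / 4 := (min_le_right _ _).trans (min_le_left _ _)
  have hs3 : s ≤ 1 / c / 4 := (min_le_right _ _).trans (min_le_right _ _)
  set υ : ℝ := 1 / c + s with hυ
  set τ : ℝ := 1 / c + 2 * s with hτ
  have hυ0 : 0 < υ := by linarith
  have hτ0 : 0 < τ := by linarith
  set S : ℝ := υ * c with hS
  have hS1 : 1 < S := by
    have h1 : 1 / c * c = 1 := by field_simp
    have h2 : S = 1 + s * c := by rw [hS, hυ, add_mul, h1]
    rw [h2]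
    have : 0 < s * c := by positivity
    linarith
  have hlam : 0 < Real.log 3 / Real.log 4 := by positivity
  obtain ⟨δ, hδ, Y0, H⟩ := blk2 r θ τ (τ / 4) υ (Real.log 3 / Real.log 4) S hθ0 hθ1 (by positivity)
    (by linarith) (by linarith) (by linarith) (by linarith) (by linarith) hlam
    (integ τ υ hτ0 (by linarith) (by linarith)) hS1 (by
      rw [hS, one_div_div, mul_div_cancel_left₀ _ hυ0.ne', hc]
      linarith) (ε / 2) (by linarith)
  have ev1 : ∀ᶠ Y : ℕ in atTop, (2 : ℝ) ≤ (Y : ℝ) ^ (s / 2) :=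
    ((tendsto_rpow_atTop (by linarith)).comp tendsto_natCast_atTop_atTop).eventually_ge_atTop _
  obtain ⟨Y1, hY1⟩ := eventually_atTop.1 ev1
  refine ⟨δ, hδ, max (max Y0 Y1) 2, ?_⟩
  intro Y hY x hYx hxY
  have e0 : Y0 ≤ Y := ((le_max_left _ _).trans (le_max_left _ _)).trans hY
  have e1 := hY1 Y (((le_max_right _ _).trans (le_max_left _ _)).trans hY)
  have hY2 : 2 ≤ Y := (le_max_right _ _).trans hY
  have hYr : (2 : ℝ) ≤ Y := by exact_mod_cast hY2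
  have hY0 : (0 : ℝ) < Y := by linarith
  have h1 := H Y e0 x hYx hxY
  have hsub : (Ioc Y (2 * Y)).filter (fun n : ℕ => Even n ∧
      ((gd r x ((n : ℝ) ^ (1 / (4 * c))) n).card : ℝ) < δ * x / Real.log Y ^ 2 * sgs n) ⊆
      (Ioc Y (2 * Y)).filter (fun n : ℕ => Even n ∧ ((gd r x ((Y : ℝ) ^ (τ / 4)) n).card : ℝ) <
        δ * x / Real.log Y ^ 2 * sgs n) := by
    intro n hn
    rw [mem_filter, mem_Ioc] at hn ⊢
    obtain ⟨⟨hn1, hn2⟩, hev, hlt⟩ := hn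
    refine ⟨⟨hn1, hn2⟩, hev, lt_of_le_of_lt ?_ hlt⟩
    have h4 : (n : ℝ) ^ (1 / (4 * c)) ≤ (Y : ℝ) ^ (τ / 4) := by
      have hnr : (n : ℝ) ≤ 2 * Y := by exact_mod_cast hn2
      have e3 : τ / 4 = s / 2 + 1 / (4 * c) := by
        rw [hτ]
        field_simp
        ring
      have e4 : (1 : ℝ) / (4 * c) ≤ 1 := by
        have : (1 : ℝ) / (4 * c) = 1 / c / 4 := by field_simp
        rw [this]
        linarith
      calc (n : ℝ) ^ (1 / (4 * c)) ≤ (2 * (Y : ℝ)) ^ (1 / (4 * c)) :=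
            Real.rpow_le_rpow (Nat.cast_nonneg _) hnr (by positivity)
        _ = 2 ^ (1 / (4 * c)) * (Y : ℝ) ^ (1 / (4 * c)) := Real.mul_rpow (by norm_num) hY0.le
        _ ≤ (Y : ℝ) ^ (s / 2) * (Y : ℝ) ^ (1 / (4 * c)) := by
            apply mul_le_mul_of_nonneg_right _ (by positivity)
            refine le_trans ?_ e1
            calc (2 : ℝ) ^ (1 / (4 * c)) ≤ 2 ^ (1 : ℝ) :=
                  Real.rpow_le_rpow_of_exponent_le (by norm_num) e4
              _ = 2 := Real.rpow_one _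
        _ = (Y : ℝ) ^ (τ / 4) := by rw [← Real.rpow_add hY0, e3]
    have h5 : gd r x ((Y : ℝ) ^ (τ / 4)) n ⊆ gd r x ((n : ℝ) ^ (1 / (4 * c))) n := by
      intro p hp
      unfold gd at hp ⊢
      rw [mem_filter] at hp ⊢
      obtain ⟨a1, a2, a3, a4, a5, a6⟩ := hp
      exact ⟨a1, a2, a3, a4, a5, fun q hq hqd => h4.trans (a6 q hq hqd)⟩
    exact_mod_cast card_le_card h5
  calc (((Ioc Y (2 * Y)).filter (fun n : ℕ => Even n ∧
      ((gd r x ((n : ℝ) ^ (1 / (4 * c))) n).card : ℝ) < δ * x / Real.log Y ^ 2 * sgs n)).card : ℝ) ≤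
      (((Ioc Y (2 * Y)).filter (fun n : ℕ => Even n ∧ ((gd r x ((Y : ℝ) ^ (τ / 4)) n).card : ℝ) <
        δ * x / Real.log Y ^ 2 * sgs n)).card : ℝ) := by exact_mod_cast card_le_card hsub
    _ ≤ (Y : ℝ) ^ (max (2 * τ - θ) 0 + ε / 2) := h1
    _ ≤ (Y : ℝ) ^ (max (2 / c - θ) 0 + ε) := by
        apply Real.rpow_le_rpow_of_exponent_le (by linarith)
        have h6 : 2 * τ - θ ≤ max (2 / c - θ) 0 + ε / 2 := by
          have h7 := le_max_left (2 / c - θ) (0 : ℝ)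
          have h8 : 2 * (1 / c) = 2 / c := by ring
          rw [hτ]
          linarith
        have h7 : max (2 * τ - θ) 0 ≤ max (2 / c - θ) 0 + ε / 2 := by
          apply max_le h6
          have := le_max_right (2 / c - θ) (0 : ℝ)
          linarith
        linarith

end Pool.Agent.Z476
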