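import Pool.Agent.H336R2.V.Raman
import Pool.Agent.Y882.Err

/-! A large sieve inequality for sparse sets, from the size of the Ramanujan sums. -/

set_option autoImplicit false

open Finset

namespace Pool.Agent.Z476

open Pool.Agent.Y882
open Pool.Agent.Helper112 Pool.Agent.Helper112.BLB

theorem ee_ex (x : ℝ) : ee x = H343.ex x := by
  unfold ee H343.ex
  congr 1
  push_cast
  ring

/-- sum of the Ramanujan sums -/
theorem raman_sum (j : ℕ) (b : ℤ) (hb : b ≠ 0) :
    ∑ f ∈ Icc 1 j, ‖∑ a ∈ (range f).filter (fun a => a.Coprime f), H343.ex ((a : ℝ) * b / f)‖ ≤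
      j * (b.natAbs.divisors.card : ℝ) := by
  have h1 : ∀ f ∈ Icc 1 j,
      ‖∑ a ∈ (range f).filter (fun a => a.Coprime f), H343.ex ((a : ℝ) * b / f)‖ ≤
      ∑ d ∈ b.natAbs.divisors, if d ∣ f then (d : ℝ) else 0 := by
    intro f hf
    rw [mem_Icc] at hf
    refine (H336V.raman f hf.1 b).trans ?_
    rw [← sum_filter]
    apply sum_le_sum_of_subset_of_nonneg
    · intro d hd
      rw [mem_filter, Nat.mem_divisors] at hd
      rw [mem_filter, Nat.mem_divisors]
      exact ⟨⟨Int.natCast_dvd.1 hd.2, by simpa using hb⟩, hd.1.1⟩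
    · intro d _ _
      positivity
  refine (sum_le_sum h1).trans ?_
  rw [sum_comm]
  have h2 : ∀ d ∈ b.natAbs.divisors, ∑ f ∈ Icc 1 j, (if d ∣ f then (d : ℝ) else 0) ≤ j := by
    intro d hd
    rw [← sum_filter, sum_const, nsmul_eq_mul]
    have h3 : (Icc 1 j).filter (fun f => d ∣ f) = (Ioc 0 j).filter (fun f => d ∣ f) := by
      ext f
      simp only [mem_filter, mem_Icc, mem_Ioc]
      constructor <;> rintro ⟨h, h'⟩ <;> exact ⟨by omega, h'⟩
    rw [h3, Nat.Ioc_filter_dvd_card_eq_div]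
    have : j / d * d ≤ j := Nat.div_mul_le_self j d
    exact_mod_cast this
  refine (sum_le_sum h2).trans ?_
  rw [sum_const, nsmul_eq_mul, mul_comm]

/-- the large sieve for sparse sets, additive form -/
theorem sls (N j : ℕ) (β : ℕ → ℝ) (S : Finset ℕ) (hS : S ⊆ Icc 1 N)
    (hβ : ∀ n, |β n| ≤ ind S n) (B : ℝ) (hB : ∀ m, 1 ≤ m → m ≤ N → (m.divisors.card : ℝ) ≤ B) :
    ∑ f ∈ Icc 1 j, ∑ a ∈ (range f).filter (fun a => a.Coprime f),
      ‖∑ n ∈ Icc 1 N, (β n : ℂ) * ee (n * a / f)‖ ^ 2 ≤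
      S.card * (j : ℝ) ^ 2 + (S.card : ℝ) ^ 2 * (j * B) := by
  classical
  have hβ1 : ∀ n, |β n| ≤ 1 := fun n => (hβ n).trans (ind_le S n).2
  have hβ0 : ∀ n, n ∉ S → β n = 0 := by
    intro n hn
    have h := hβ n
    unfold ind at h
    rw [if_neg hn] at h
    exact abs_eq_zero.1 (le_antisymm h (abs_nonneg _))
  have e1 : ∀ f a : ℕ, ∑ n ∈ Icc 1 N, (β n : ℂ) * ee (n * a / f) =
      ∑ n ∈ S, (β n : ℂ) * ee (n * a / f) := by
    intro f a
    symm
    apply sum_subset hS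
    intro n _ hn
    rw [hβ0 n hn]
    simp
  simp_rw [e1]
  set K : ℤ → ℂ := fun b => ∑ f ∈ Icc 1 j, ∑ a ∈ (range f).filter (fun a => a.Coprime f),
    H343.ex ((a : ℝ) * b / f) with hK
  have e2 : ∀ f a : ℕ, ((‖∑ n ∈ S, (β n : ℂ) * ee (n * a / f)‖ ^ 2 : ℝ) : ℂ) =
      ∑ n ∈ S, ∑ m ∈ S, ((β n * β m : ℝ) : ℂ) * H343.ex ((a : ℝ) * (((n : ℤ) - m : ℤ) : ℝ) / f) := by
    intro f a
    rw [← Complex.normSq_eq_norm_sq, ← Complex.mul_conj, map_sum, sum_mul_sum]
    apply sum_congr rfl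
    intro n _
    apply sum_congr rfl
    intro m _
    rw [map_mul, Complex.conj_ofReal, ls_conj_ee]
    have : (a : ℝ) * (((n : ℤ) - m : ℤ) : ℝ) / f = n * a / f + -(m * a / f) := by
      push_cast
      ring
    rw [this, ← ee_ex, ls_ee_add]
    push_cast
    ring
  have key : ((∑ f ∈ Icc 1 j, ∑ a ∈ (range f).filter (fun a => a.Coprime f),
      ‖∑ n ∈ S, (β n : ℂ) * ee (n * a / f)‖ ^ 2 : ℝ) : ℂ) =
      ∑ n ∈ S, ∑ m ∈ S, ((β n * β m : ℝ) : ℂ) * K ((n : ℤ) - m) := by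
    rw [Complex.ofReal_sum]
    simp_rw [Complex.ofReal_sum, e2]
    have s1 : ∀ f : ℕ, ∑ a ∈ (range f).filter (fun a => a.Coprime f), ∑ n ∈ S, ∑ m ∈ S,
        ((β n * β m : ℝ) : ℂ) * H343.ex ((a : ℝ) * (((n : ℤ) - m : ℤ) : ℝ) / f) =
        ∑ n ∈ S, ∑ m ∈ S, ((β n * β m : ℝ) : ℂ) * ∑ a ∈ (range f).filter (fun a => a.Coprime f),
          H343.ex ((a : ℝ) * (((n : ℤ) - m : ℤ) : ℝ) / f) := by
      intro f
      rw [sum_comm]
      apply sum_congr rfl
      intro n _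
      rw [sum_comm]
      apply sum_congr rfl
      intro m _
      rw [mul_sum]
    simp_rw [s1]
    rw [sum_comm]
    apply sum_congr rfl
    intro n _
    rw [sum_comm]
    apply sum_congr rfl
    intro m _
    rw [hK, ← mul_sum]
  have hnn : 0 ≤ ∑ f ∈ Icc 1 j, ∑ a ∈ (range f).filter (fun a => a.Coprime f),
      ‖∑ n ∈ S, (β n : ℂ) * ee (n * a / f)‖ ^ 2 :=
    sum_nonneg fun f _ => sum_nonneg fun a _ => by positivity
  have h1 : ∑ f ∈ Icc 1 j, ∑ a ∈ (range f).filter (fun a => a.Coprime f),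
      ‖∑ n ∈ S, (β n : ℂ) * ee (n * a / f)‖ ^ 2 =
      ‖∑ n ∈ S, ∑ m ∈ S, ((β n * β m : ℝ) : ℂ) * K ((n : ℤ) - m)‖ := by
    rw [← key, Complex.norm_real, Real.norm_of_nonneg hnn]
  rw [h1]
  have hK0 : ‖K 0‖ ≤ (j : ℝ) ^ 2 := by
    rw [hK]
    calc ‖∑ f ∈ Icc 1 j, ∑ a ∈ (range f).filter (fun a => a.Coprime f),
        H343.ex ((a : ℝ) * ((0 : ℤ) : ℝ) / f)‖ ≤ ∑ f ∈ Icc 1 j, (j : ℝ) := by
          refine (norm_sum_le _ _).trans (sum_le_sum fun f hf => ?_)
          rw [mem_Icc] at hf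
          refine (norm_sum_le _ _).trans ?_
          have h2 : ∀ a ∈ (range f).filter (fun a => a.Coprime f),
              ‖H343.ex ((a : ℝ) * ((0 : ℤ) : ℝ) / f)‖ = 1 := by
            intro a _
            rw [← ee_ex, ls_norm_ee]
          rw [sum_congr rfl h2, sum_const, nsmul_eq_mul, mul_one]
          have h3 : ((range f).filter (fun a => a.Coprime f)).card ≤ j := by
            refine (card_filter_le _ _).trans ?_
            rw [card_range]
            exact hf.2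
          exact_mod_cast h3
      _ = (j : ℝ) ^ 2 := by
          rw [sum_const, Nat.card_Icc, nsmul_eq_mul, Nat.add_sub_cancel]
          ring
  have hKb : ∀ n ∈ S, ∀ m ∈ S, n ≠ m → ‖K ((n : ℤ) - m)‖ ≤ j * B := by
    intro n hn m hm hnm
    have hn' := mem_Icc.1 (hS hn)
    have hm' := mem_Icc.1 (hS hm)
    have hb : (n : ℤ) - m ≠ 0 := by omega
    rw [hK]
    refine (norm_sum_le _ _).trans ((raman_sum j _ hb).trans ?_)
    apply mul_le_mul_of_nonneg_left _ (Nat.cast_nonneg _)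
    apply hB
    · omega
    · omega
  have hjB : 0 ≤ (S.card : ℝ) ^ 2 * (j * B) := by
    rcases S.eq_empty_or_nonempty with h | h
    · rw [h]; simp
    · obtain ⟨n, hn⟩ := h
      have hn' := mem_Icc.1 (hS hn)
      have : (0 : ℝ) ≤ B := le_trans (Nat.cast_nonneg _) (hB 1 le_rfl (by omega))
      positivity
  calc ‖∑ n ∈ S, ∑ m ∈ S, ((β n * β m : ℝ) : ℂ) * K ((n : ℤ) - m)‖ ≤
      ∑ n ∈ S, ∑ m ∈ S, ‖K ((n : ℤ) - m)‖ := by
        refine (norm_sum_le _ _).trans (sum_le_sum fun n _ => ?_)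
        refine (norm_sum_le _ _).trans (sum_le_sum fun m _ => ?_)
        rw [norm_mul, Complex.norm_real, Real.norm_eq_abs, abs_mul]
        calc |β n| * |β m| * ‖K ((n : ℤ) - m)‖ ≤ 1 * 1 * ‖K ((n : ℤ) - m)‖ := by
              apply mul_le_mul_of_nonneg_right _ (norm_nonneg _)
              exact mul_le_mul (hβ1 n) (hβ1 m) (abs_nonneg _) zero_le_one
          _ = _ := by ring
    _ ≤ ∑ n ∈ S, ((j : ℝ) ^ 2 + S.card * (j * B)) := by
        apply sum_le_sum
        intro n hn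
        rw [← add_sum_erase S _ hn]
        apply add_le_add
        · rw [sub_self]
          exact hK0
        · have h5 : ∀ m ∈ S.erase n, ‖K ((n : ℤ) - m)‖ ≤ j * B := by
            intro m hm
            rw [mem_erase] at hm
            exact hKb n hn m hm.2 hm.1.symm
          refine (sum_le_sum h5).trans ?_
          rw [sum_const, nsmul_eq_mul]
          have hn' := mem_Icc.1 (hS hn)
          have hB0 : (0 : ℝ) ≤ B := le_trans (Nat.cast_nonneg _) (hB 1 le_rfl (by omega))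
          apply mul_le_mul_of_nonneg_right _ (by positivity)
          exact_mod_cast card_le_card (erase_subset _ _)
    _ = _ := by
        rw [sum_const, nsmul_eq_mul]
        ring

end Pool.Agent.Z476
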